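import Mathlib
import Pool.Agent.Y365.SS.Main

/-!
For every submetrizable space `X` (in particular every metrizable space) the free topological group
`F(X)` and the free abelian topological group `A(X)` are S-separable if and only if `X` is
countable.  In particular `F([0,1])` is not S-separable.

The definitions `ClosedSubgroupsSeparable`, `SSeparable`, `WeaklySSeparable`, `MarkovFree`,
`MarkovAbelian` are in `Pool.Agent.Y365.SS.Defs`.
-/

set_option autoImplicit false

namespace Pool.Agent.Results.MP_656a26_gt.CountableSpaces

open TopologicalSpace Pool.Agent.Y365.SS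

universe u v w

/-- `X` has a continuous injection into a metric space. -/
def Submetrizable (X : Type u) [TopologicalSpace X] : Prop :=
  ∃ (M : Type u) (_ : MetricSpace M) (f : X → M), Continuous f ∧ Function.Injective f

/-- Sanity check: metrizable spaces are submetrizable. -/
theorem submetrizable_of_metrizable (X : Type u) [TopologicalSpace X] [MetrizableSpace X] :
    Submetrizable X := by
  letI := metrizableSpaceMetric X
  exact ⟨X, inferInstance, id, continuous_id, Function.injective_id⟩

theorem result :
    -- arbitrary spaces: every continuous metrizable image is countable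
    (∀ (X : Type u) [TopologicalSpace X],
      (WeaklySSeparable (MarkovFree X) ∨ WeaklySSeparable (MarkovAbelian X)) →
      ∀ (M : Type v) [MetricSpace M] (g : X → M), Continuous g → (Set.range g).Countable) ∧
    -- the classification for submetrizable spaces
    (∀ (X : Type u) [TopologicalSpace X], Submetrizable X →
      [SSeparable.{u, w} (MarkovFree X), WeaklySSeparable (MarkovFree X),
        SSeparable.{u, w} (MarkovAbelian X), WeaklySSeparable (MarkovAbelian X),
        Countable X].TFAE) ∧
    -- the question
    (∃ (H : Type) (_ : CommGroup H) (_ : TopologicalSpace H),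
      IsTopologicalGroup H ∧ T2Space H ∧
      (∀ K : Subgroup H, IsClosed (K : Set H) → SeparableSpace K) ∧
      ∃ L : Subgroup (MarkovFree unitInterval × H),
        IsClosed (L : Set (MarkovFree unitInterval × H)) ∧ ¬ SeparableSpace L) := by
  have hcl : ∀ (X : Type u) [TopologicalSpace X], Submetrizable X →
      (WeaklySSeparable (MarkovFree X) ∨ WeaklySSeparable (MarkovAbelian X)) → Countable X := by
    intro X _ hX h
    obtain ⟨M, _, f, hf, hinj⟩ := hX
    have h1 : Countable (Set.range f) := (countable_range_metric h M f hf).to_subtype
    exact (Set.rangeFactorization_injective.mpr hinj).countable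
  refine ⟨fun X _ h M _ g hg => countable_range_metric h M g hg, fun X _ hX => ?_, ?_⟩
  · tfae_have 1 → 2 := weakly_of_sSeparable
    tfae_have 3 → 4 := weakly_of_sSeparable
    tfae_have 2 → 5 := fun h => hcl X hX (Or.inl h)
    tfae_have 4 → 5 := fun h => hcl X hX (Or.inr h)
    tfae_have 5 → 1 := fun _ => sSeparable_of_countable _
    tfae_have 5 → 3 := fun _ => sSeparable_of_countable _
    tfae_finish
  · have h1 : ¬ WeaklySSeparable (MarkovFree unitInterval) := by
      intro h
      have h2 := countable_range_free (Or.inl h) (fun x : unitInterval => (x : ℝ))
        continuous_subtype_val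
      rw [Subtype.range_coe] at h2
      have h3 := Cardinal.le_aleph0_iff_set_countable.mpr h2
      rw [show (unitInterval : Set ℝ) = Set.Icc 0 1 from rfl,
        Cardinal.mk_Icc_real zero_lt_one] at h3
      exact absurd h3 (not_le.mpr Cardinal.aleph0_lt_continuum)
    simp only [WeaklySSeparable, ClosedSubgroupsSeparable] at h1
    push Not at h1
    obtain ⟨H, i1, i2, i3, i4, hH, L, hL, hLs⟩ := h1
    exact ⟨H, i1, i2, i3, i4, hH, L, hL, hLs⟩

end Pool.Agent.Results.MP_656a26_gt.CountableSpaces
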